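import Mathlib

/-!
Alternating sums over subsets of products of affine polynomials.
-/

namespace Pool.Agent.H18.AKC

open Polynomial

/-- Value at the subset `z` of the affine datum `e = (p, w, β)`: the polynomial
`(p - ∑_{t ∈ z} w t) - β X`. -/
noncomputable def aff {ι : Type*} (e : ℝ × (ι → ℝ) × ℝ) (z : Finset ι) : ℝ[X] :=
  C (e.1 - ∑ t ∈ z, e.2.1 t) - C e.2.2 * X

/-- Shift of the datum by the element `a`. -/
noncomputable def shift {ι : Type*} (a : ι) (e : ℝ × (ι → ℝ) × ℝ) : ℝ × (ι → ℝ) × ℝ :=
  (e.1 - e.2.1 a, e.2.1, e.2.2)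

/-- The product of the affine polynomials of a list of data. -/
noncomputable def prodL {ι : Type*} (L : List (ℝ × (ι → ℝ) × ℝ)) (z : Finset ι) : ℝ[X] :=
  (L.map (fun e => aff e z)).prod

lemma aff_insert {ι : Type*} [DecidableEq ι] (e : ℝ × (ι → ℝ) × ℝ) (z : Finset ι) (a : ι)
    (ha : a ∉ z) : aff e (insert a z) = aff (shift a e) z := by
  unfold aff shift
  rw [Finset.sum_insert ha]
  congr 2
  ring

lemma prodL_insert {ι : Type*} [DecidableEq ι] (L : List (ℝ × (ι → ℝ) × ℝ)) (z : Finset ι) (a : ι)
    (ha : a ∉ z) : prodL L (insert a z) = prodL (L.map (shift a)) z := by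
  unfold prodL
  rw [List.map_map]
  congr 1
  apply List.map_congr_left
  intro e _
  exact aff_insert e z a ha

lemma prodL_append {ι : Type*} (K L : List (ℝ × (ι → ℝ) × ℝ)) (z : Finset ι) :
    prodL (K ++ L) z = prodL K z * prodL L z := by
  unfold prodL
  rw [List.map_append, List.prod_append]

lemma prodL_cons {ι : Type*} (e : ℝ × (ι → ℝ) × ℝ) (L : List (ℝ × (ι → ℝ) × ℝ)) (z : Finset ι) :
    prodL (e :: L) z = aff e z * prodL L z := by
  unfold prodL
  rw [List.map_cons, List.prod_cons]

lemma natDegree_aff {ι : Type*} (e : ℝ × (ι → ℝ) × ℝ) (z : Finset ι) : (aff e z).natDegree ≤ 1 := by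
  unfold aff
  refine (natDegree_sub_le _ _).trans ?_
  refine max_le ?_ ?_
  · rw [natDegree_C]; exact Nat.zero_le _
  · exact (natDegree_C_mul_le _ _).trans (by rw [natDegree_X])

lemma natDegree_prodL {ι : Type*} (L : List (ℝ × (ι → ℝ) × ℝ)) (z : Finset ι) :
    (prodL L z).natDegree ≤ L.length := by
  induction L with
  | nil => simp [prodL]
  | cons e L ih =>
    rw [prodL_cons, List.length_cons]
    refine natDegree_mul_le.trans ?_
    have := natDegree_aff e z
    omega

/-- The alternating sum. -/
noncomputable def alt {ι : Type*} (A : Finset ι) (L : List (ℝ × (ι → ℝ) × ℝ)) : ℝ[X] :=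
  ∑ z ∈ A.powerset, C ((-1 : ℝ) ^ z.card) * prodL L z

lemma alt_coeff {ι : Type*} [DecidableEq ι] (A : Finset ι) :
    ∀ (L : List (ℝ × (ι → ℝ) × ℝ)) (d : ℕ), L.length < A.card + d → (alt A L).coeff d = 0 := by
  induction A using Finset.induction_on with
  | empty =>
    intro L d h
    have h1 : alt (∅ : Finset ι) L = prodL L ∅ := by simp [alt]
    rw [h1]
    apply coeff_eq_zero_of_natDegree_lt
    refine lt_of_le_of_lt (natDegree_prodL L ∅) ?_
    simpa using h
  | insert a A ha ih =>
    have inner : ∀ (L K : List (ℝ × (ι → ℝ) × ℝ)) (d : ℕ), K.length + L.length < A.card + 1 + d →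
        (∑ z ∈ A.powerset, C ((-1 : ℝ) ^ z.card) *
          (prodL K z * (prodL L z - prodL L (insert a z)))).coeff d = 0 := by
      intro L
      induction L with
      | nil =>
        intro K d _
        have : ∀ z ∈ A.powerset, C ((-1 : ℝ) ^ z.card) *
          (prodL K z * (prodL ([] : List (ℝ × (ι → ℝ) × ℝ)) z - prodL [] (insert a z))) = 0 := by
          intro z _
          simp [prodL]
        rw [Finset.sum_eq_zero this, coeff_zero]
      | cons e L ihL =>
        intro K d hd
        have hsplit : ∀ z ∈ A.powerset, C ((-1 : ℝ) ^ z.card) *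
            (prodL K z * (prodL (e :: L) z - prodL (e :: L) (insert a z)))
            = C ((-1 : ℝ) ^ z.card) *
              (prodL (K ++ [e]) z * (prodL L z - prodL L (insert a z)))
              + C (e.2.1 a) * (C ((-1 : ℝ) ^ z.card) * prodL (K ++ L.map (shift a)) z) := by
          intro z hz
          have haz : a ∉ z := fun h => ha (Finset.mem_powerset.1 hz h)
          rw [prodL_cons, prodL_cons, prodL_append, prodL_append, ← prodL_insert L z a haz]
          have h1 : prodL [e] z = aff e z := by simp [prodL]
          have h2 : aff e (insert a z) = aff e z - C (e.2.1 a) := by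
            unfold aff
            rw [Finset.sum_insert haz]
            simp only [C_sub, C_add]
            ring
          rw [h1, h2]
          ring
        rw [Finset.sum_congr rfl hsplit, Finset.sum_add_distrib, coeff_add, ← Finset.mul_sum,
          coeff_C_mul]
        have e1 := ihL (K ++ [e]) d (by
          simp only [List.length_append, List.length_cons, List.length_nil] at hd ⊢
          omega)
        have e2 := ih (K ++ L.map (shift a)) d (by
          simp only [List.length_append, List.length_cons, List.length_map] at hd ⊢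
          omega)
        unfold alt at e2
        rw [e1, e2]
        ring
    intro L d h
    rw [Finset.card_insert_of_notMem ha] at h
    have hal : alt (insert a A) L = ∑ z ∈ A.powerset, C ((-1 : ℝ) ^ z.card) *
          (prodL [] z * (prodL L z - prodL L (insert a z))) := by
      unfold alt
      rw [Finset.sum_powerset_insert ha, ← Finset.sum_add_distrib]
      apply Finset.sum_congr rfl
      intro z hz
      have haz : a ∉ z := fun h => ha (Finset.mem_powerset.1 hz h)
      rw [Finset.card_insert_of_notMem haz, pow_succ]
      have h1 : prodL ([] : List (ℝ × (ι → ℝ) × ℝ)) z = 1 := by simp [prodL]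
      rw [h1]
      simp only [C_mul, C_neg, C_1]
      ring
    rw [hal]
    exact inner L [] d (by simpa using h)

/-- The alternating sum over the sets containing `a`, shifted. -/
lemma alt_insert {ι : Type*} [DecidableEq ι] (A : Finset ι) (a : ι) (ha : a ∉ A)
    (L : List (ℝ × (ι → ℝ) × ℝ)) :
    alt (insert a A) L = alt A L - alt A (L.map (shift a)) := by
  unfold alt
  rw [Finset.sum_powerset_insert ha, ← Finset.sum_sub_distrib, ← Finset.sum_add_distrib]
  apply Finset.sum_congr rfl
  intro z hz
  have haz : a ∉ z := fun h => ha (Finset.mem_powerset.1 hz h)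
  rw [Finset.card_insert_of_notMem haz, pow_succ, prodL_insert L z a haz]
  simp only [C_mul, C_neg, C_1]
  ring

end Pool.Agent.H18.AKC
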