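import Mathlib

/-!
Selection of coordinates on which every row is constant or has no forbidden subset sum.
-/

namespace Pool.Agent.H18.AKC

open Finset

/-- A large set contains a subset of size `m` on which a function is constant or injective. -/
lemma const_or_inj {α : Type*} [DecidableEq α] (s : Finset α) (f : α → ℝ) (m : ℕ)
    (hs : m * m ≤ s.card) :
    ∃ t ⊆ s, m ≤ t.card ∧ ((∃ c, ∀ i ∈ t, f i = c) ∨ Set.InjOn f t) := by
  classical
  by_cases him : m ≤ (s.image f).card
  · -- injective part
    obtain ⟨t, ht, htc⟩ : ∃ t ⊆ s, Set.InjOn f t ∧ t.image f = s.image f := by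
      obtain ⟨u, hu, hinj, himg⟩ := Finset.exists_subset_injOn_image_eq_of_surjOn (f := f)
        (s := (s : Set α)) (t := s.image f) (by
          intro y hy
          simp only [coe_image] at hy
          exact hy)
      exact ⟨u, by exact_mod_cast hu, hinj, himg⟩
    refine ⟨t, ht, ?_, Or.inr htc.1⟩
    rw [← htc.2] at him
    exact him.trans Finset.card_image_le
  · push Not at him
    rcases Nat.eq_zero_or_pos m with h0 | hm
    · subst h0
      exact ⟨∅, Finset.empty_subset _, le_refl _, Or.inl ⟨0, by simp⟩⟩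
    · have hcard : (s.image f).card * (m - 1) < s.card := by
        have h1 : (s.image f).card * (m - 1) ≤ (m - 1) * (m - 1) :=
          Nat.mul_le_mul_right _ (by omega)
        have h2 : (m - 1) * (m - 1) < m * m := Nat.mul_self_lt_mul_self (by omega)
        omega
      obtain ⟨y, hy, hfib⟩ := Finset.exists_lt_card_fiber_of_mul_lt_card_of_maps_to
        (f := f) (s := s) (t := s.image f) (fun a ha => Finset.mem_image_of_mem f ha) hcard
      refine ⟨s.filter (fun x => f x = y), Finset.filter_subset _ _, by omega, Or.inl ⟨y, ?_⟩⟩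
      intro i hi
      exact (Finset.mem_filter.1 hi).2

/-- The size needed. -/
def bigR (m : ℕ) : ℕ → ℕ
  | 0 => m
  | M + 1 => bigR m M * bigR m M

lemma const_or_inj_all {α κ : Type*} [DecidableEq α] [DecidableEq κ] (a : κ → α → ℝ) (m : ℕ)
    (J : Finset κ) : ∀ s : Finset α, bigR m J.card ≤ s.card →
    ∃ t ⊆ s, m ≤ t.card ∧ ∀ j ∈ J, ((∃ c, ∀ i ∈ t, a j i = c) ∨ Set.InjOn (a j) t) := by
  induction J using Finset.induction_on with
  | empty =>
    intro s hs
    exact ⟨s, Finset.Subset.refl _, by simpa [bigR] using hs, by simp⟩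
  | insert j J hj ih =>
    intro s hs
    rw [Finset.card_insert_of_notMem hj, bigR] at hs
    obtain ⟨t, hts, htc, ht⟩ := const_or_inj s (a j) _ hs
    obtain ⟨u, hut, huc, hu⟩ := ih t htc
    refine ⟨u, hut.trans hts, huc, ?_⟩
    intro j' hj'
    rw [Finset.mem_insert] at hj'
    rcases hj' with rfl | hj'
    · rcases ht with ⟨c, hc⟩ | ht
      · exact Or.inl ⟨c, fun i hi => hc i (hut hi)⟩
      · exact Or.inr (ht.mono (by exact_mod_cast hut))
    · exact hu j' hj'

/-- Greedy choice. -/
lemma greedy {α κ : Type*} [DecidableEq α] [DecidableEq κ] (a : κ → α → ℝ) (J : Finset κ)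
    (Fb : κ → Finset ℝ) (q : ℕ) (hq : ∀ j ∈ J, (Fb j).card ≤ q) (t : Finset α)
    (ht : ∀ j ∈ J, ((∃ c, ∀ i ∈ t, a j i = c) ∨ Set.InjOn (a j) t)) :
    ∀ r : ℕ, r + J.card * (2 ^ r * q) ≤ t.card →
    ∃ B ⊆ t, B.card = r ∧ ∀ j ∈ J, ((∃ c, ∀ i ∈ t, a j i = c) ∨
      ∀ S ⊆ B, S.Nonempty → ∑ i ∈ S, a j i ∉ Fb j) := by
  classical
  intro r
  induction r with
  | zero =>
    intro _
    refine ⟨∅, Finset.empty_subset _, rfl, ?_⟩
    intro j _
    refine Or.inr ?_
    intro S hS hne
    rw [Finset.subset_empty] at hS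
    exact absurd hS hne.ne_empty
  | succ r ih =>
    intro hr
    have hmono : J.card * (2 ^ r * q) ≤ J.card * (2 ^ (r + 1) * q) := by
      apply Nat.mul_le_mul_left
      apply Nat.mul_le_mul_right
      exact Nat.pow_le_pow_right (by norm_num) (by omega)
    obtain ⟨B, hBt, hBc, hB⟩ := ih (by omega)
    -- the set of bad elements
    set bad : Finset α := (J ×ˢ (B.powerset ×ˢ (J.biUnion Fb))).biUnion
      (fun x => if x.2.2 ∈ Fb x.1 then
        (if Set.InjOn (a x.1) t then t.filter (fun b => a x.1 b = x.2.2 - ∑ i ∈ x.2.1, a x.1 i)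
          else ∅) else ∅) with hbad
    have hbad' : ∀ j ∈ J, Set.InjOn (a j) t → ∀ S ⊆ B, ∀ y ∈ Fb j, ∀ b ∈ t,
        a j b = y - ∑ i ∈ S, a j i → b ∈ bad := by
      intro j hj hinj S hS y hy b hb he
      rw [hbad, Finset.mem_biUnion]
      refine ⟨(j, (S, y)), ?_, ?_⟩
      · simp only [Finset.mem_product, Finset.mem_powerset, Finset.mem_biUnion]
        exact ⟨hj, hS, j, hj, hy⟩
      · simp only [hy, if_true, hinj, Finset.mem_filter]
        exact ⟨hb, he⟩
    have hcard : bad.card ≤ J.card * (2 ^ r * q) := by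
      have h1 : bad ⊆ J.biUnion (fun j => (B.powerset ×ˢ Fb j).biUnion (fun x =>
          if Set.InjOn (a j) t then t.filter (fun b => a j b = x.2 - ∑ i ∈ x.1, a j i) else ∅)) := by
        intro b hb
        rw [hbad, Finset.mem_biUnion] at hb
        obtain ⟨⟨j, S, y⟩, hx, hb⟩ := hb
        simp only [Finset.mem_product, Finset.mem_powerset] at hx
        by_cases hy : y ∈ Fb j
        · simp only [hy, if_true] at hb
          rw [Finset.mem_biUnion]
          refine ⟨j, hx.1, ?_⟩
          rw [Finset.mem_biUnion]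
          refine ⟨(S, y), ?_, hb⟩
          rw [Finset.mem_product]
          exact ⟨Finset.mem_powerset.2 hx.2.1, hy⟩
        · simp only [hy, if_false] at hb
          exact absurd hb (Finset.notMem_empty _)
      refine (Finset.card_le_card h1).trans ?_
      refine Finset.card_biUnion_le_card_mul _ _ _ ?_
      intro j hj
      have h2 : 2 ^ r * q = 2 ^ r * q * 1 := by ring
      refine (Finset.card_biUnion_le_card_mul _ _ 1 ?_).trans ?_
      · intro x _
        by_cases hinj : Set.InjOn (a j) t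
        · simp only [hinj, if_true]
          rw [Finset.card_le_one]
          intro b hb b' hb'
          rw [Finset.mem_filter] at hb hb'
          exact hinj hb.1 hb'.1 (by rw [hb.2, hb'.2])
        · simp [hinj]
      · rw [Finset.card_product, Finset.card_powerset, hBc, mul_one]
        exact Nat.mul_le_mul_left _ (hq j hj)
    have hex : (t \ (B ∪ bad)).Nonempty := by
      rw [← Finset.card_pos]
      have h1 := Finset.le_card_sdiff (B ∪ bad) t
      have h2 := Finset.card_union_le B bad
      omega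
    obtain ⟨b, hb⟩ := hex
    rw [Finset.mem_sdiff, Finset.mem_union, not_or] at hb
    obtain ⟨hbt, hbB, hbbad⟩ := hb
    refine ⟨insert b B, Finset.insert_subset hbt hBt, by
      rw [Finset.card_insert_of_notMem hbB, hBc], ?_⟩
    intro j hj
    rcases ht j hj with ⟨c, hc⟩ | hinj
    · exact Or.inl ⟨c, hc⟩
    · rcases hB j hj with hconst | hB'
      · exact Or.inl hconst
      · right
        intro S hS hSne hmem
        by_cases hbS : b ∈ S
        · have hS' : S.erase b ⊆ B := by
            intro x hx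
            rw [Finset.mem_erase] at hx
            rcases Finset.mem_insert.1 (hS hx.2) with h | h
            · exact absurd h hx.1
            · exact h
          refine hbbad (hbad' j hj hinj (S.erase b) hS' _ hmem b hbt ?_)
          rw [← Finset.add_sum_erase S (a j) hbS]
          ring
        · have hS' : S ⊆ B := by
            intro x hx
            rcases Finset.mem_insert.1 (hS hx) with h | h
            · exact absurd (h ▸ hx) hbS
            · exact h
          exact hB' S hS' hSne hmem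

/-- The size needed in `select`. -/
def sizeR (M q r : ℕ) : ℕ := bigR (r + M * (2 ^ r * q)) M

/-- Selection lemma. -/
lemma select {α κ : Type*} [DecidableEq α] [DecidableEq κ] (a : κ → α → ℝ) (J : Finset κ)
    (Fb : κ → Finset ℝ) (q r : ℕ) (hq : ∀ j ∈ J, (Fb j).card ≤ q) (s : Finset α)
    (hs : sizeR J.card q r ≤ s.card) :
    ∃ B ⊆ s, B.card = r ∧ ∀ j ∈ J, ((∃ c, ∀ i ∈ B, a j i = c) ∨
      ∀ S ⊆ B, S.Nonempty → ∑ i ∈ S, a j i ∉ Fb j) := by
  obtain ⟨t, hts, htc, ht⟩ := const_or_inj_all a _ J s hs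
  obtain ⟨B, hBt, hBc, hB⟩ := greedy a J Fb q hq t ht r htc
  refine ⟨B, hBt.trans hts, hBc, ?_⟩
  intro j hj
  rcases hB j hj with ⟨c, hc⟩ | h
  · exact Or.inl ⟨c, fun i hi => hc i (hBt hi)⟩
  · exact Or.inr h

lemma bigR_mono {m m' : ℕ} (h : m ≤ m') (M : ℕ) : bigR m M ≤ bigR m' M := by
  induction M with
  | zero => exact h
  | succ M ih => exact Nat.mul_le_mul ih ih

lemma le_bigR_succ {m : ℕ} (hm : 1 ≤ m) (M : ℕ) : 1 ≤ bigR m M ∧ bigR m M ≤ bigR m (M + 1) := by
  induction M with
  | zero => exact ⟨hm, Nat.le_mul_of_pos_left _ hm⟩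
  | succ M ih =>
    have h1 : 1 ≤ bigR m (M + 1) := ih.1.trans ih.2
    exact ⟨h1, Nat.le_mul_of_pos_left _ h1⟩

lemma bigR_mono' {m : ℕ} (hm : 1 ≤ m) {M M' : ℕ} (h : M ≤ M') : bigR m M ≤ bigR m M' := by
  induction h with
  | refl => exact le_refl _
  | step _ ih => exact ih.trans (le_bigR_succ hm _).2

lemma sizeR_mono {M M' q q' r : ℕ} (hr : 1 ≤ r) (hM : M ≤ M') (hq : q ≤ q') :
    sizeR M q r ≤ sizeR M' q' r := by
  unfold sizeR
  refine (bigR_mono' (by omega) hM).trans ?_
  apply bigR_mono
  have : M * (2 ^ r * q) ≤ M' * (2 ^ r * q') := Nat.mul_le_mul hM (Nat.mul_le_mul_left _ hq)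
  omega

end Pool.Agent.H18.AKC
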