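import Pool.Agent.H18.AKC.PolyCore
import Pool.Agent.H18.AKC.Select

/-!
The combinatorial core: covers with a rooted forest of hyperplanes `x_i + x_{p(i)} = 1`.
-/

namespace Pool.Agent.H18.AKC

open Finset

/-- Extension of a vector by the value `0` at the extra index `none`. -/
def ext {n : ℕ} (x : Fin n → ℝ) : Option (Fin n) → ℝ
  | none => 0
  | some i => x i

@[simp] lemma ext_none {n : ℕ} (x : Fin n → ℝ) : ext x none = 0 := rfl
@[simp] lemma ext_some {n : ℕ} (x : Fin n → ℝ) (i : Fin n) : ext x (some i) = x i := rfl

/-- The number of rows covering `v` is at least `k` for all nonzero cube vectors. -/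
def Cov {n N : ℕ} (k : ℕ) (a : Fin N → Fin n → ℝ) : Prop :=
  ∀ v : Fin n → ℝ, (∀ i, v i = 0 ∨ v i = 1) → v ≠ 0 →
    k ≤ (univ.filter (fun j => ∑ i, a j i * v i = 1)).card

/-- A rooted forest of pair rows. -/
structure Forest {n N : ℕ} (a : Fin N → Fin n → ℝ) where
  A : Finset (Fin n)
  p : Fin n → Option (Fin n)
  ρ : Fin n → ℕ
  κ : Fin n → Option (Fin n)
  row : Fin n → Fin N
  hp0 : ∀ i, p i = none → ρ i = 0
  hps : ∀ i i', p i = some i' → ρ i = ρ i' + 1
  hκA : ∀ i ∈ A, κ i = some i
  hκ0 : ∀ i ∉ A, p i = none → κ i = none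
  hκs : ∀ i ∉ A, ∀ i', p i = some i' → κ i = κ i'
  hκm : ∀ i t, κ i = some t → t ∈ A
  hrow : ∀ i ∉ A, ∀ v : Fin n → ℝ, ∑ t, a (row i) t * v t = v i + ext v (p i)
  hinj : ∀ i ∉ A, ∀ i' ∉ A, row i = row i' → i = i'

namespace Forest

variable {n N : ℕ} {a : Fin N → Fin n → ℝ} (F : Forest a)

/-- The other rows. -/
def Gl : Finset (Fin N) := univ \ ((univ \ F.A).image F.row)

lemma card_Gl : F.Gl.card + n = N + F.A.card := by
  have h1 : ((univ \ F.A).image F.row).card = (univ \ F.A).card := by
    apply Finset.card_image_of_injOn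
    intro i hi i' hi' h
    simp only [coe_sdiff, coe_univ, Set.mem_sdiff, Set.mem_univ, true_and, mem_coe] at hi hi'
    exact F.hinj i hi i' hi' h
  have h2 : (univ \ F.A).card + F.A.card = n := by
    have := Finset.card_sdiff_add_card_eq_card (Finset.subset_univ F.A)
    rw [Finset.card_univ, Fintype.card_fin] at this
    exact this
  have h3 : F.Gl.card + ((univ \ F.A).image F.row).card = N := by
    have := Finset.card_sdiff_add_card_eq_card (Finset.subset_univ ((univ \ F.A).image F.row))
    rw [Finset.card_univ, Fintype.card_fin] at this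
    exact this
  omega

lemma mem_Gl_or (j : Fin N) : j ∈ F.Gl ∨ ∃ i ∉ F.A, F.row i = j := by
  by_cases h : j ∈ (univ \ F.A).image F.row
  · right
    rw [Finset.mem_image] at h
    obtain ⟨i, hi, hij⟩ := h
    rw [Finset.mem_sdiff] at hi
    exact ⟨i, hi.2, hij⟩
  · left
    unfold Gl
    rw [Finset.mem_sdiff]
    exact ⟨Finset.mem_univ _, h⟩

/-- If only the pair rows of `S` can cover `v`, at least `k - |S|` other rows cover it. -/
lemma gl_cover {k : ℕ} (hcov : Cov k a) (v : Fin n → ℝ) (hv : ∀ i, v i = 0 ∨ v i = 1)
    (hv0 : v ≠ 0) (S : Finset (Fin n))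
    (hS : ∀ i ∉ F.A, i ∉ S → v i + ext v (F.p i) ≠ 1) :
    k - S.card ≤ (F.Gl.filter (fun j => ∑ i, a j i * v i = 1)).card := by
  have h1 := hcov v hv hv0
  have h2 : (univ.filter (fun j => ∑ i, a j i * v i = 1)) ⊆
      (F.Gl.filter (fun j => ∑ i, a j i * v i = 1)) ∪ S.image F.row := by
    intro j hj
    rw [Finset.mem_filter] at hj
    rw [Finset.mem_union, Finset.mem_filter]
    rcases F.mem_Gl_or j with h | ⟨i, hi, hij⟩
    · exact Or.inl ⟨h, hj.2⟩
    · right
      rw [Finset.mem_image]
      refine ⟨i, ?_, hij⟩
      by_contra hiS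
      apply hS i hi hiS
      rw [← F.hrow i hi v, hij]
      exact hj.2
  have h3 := Finset.card_le_card h2
  have h4 := Finset.card_union_le (F.Gl.filter (fun j => ∑ i, a j i * v i = 1)) (S.image F.row)
  have h5 : (S.image F.row).card ≤ S.card := Finset.card_image_le
  omega

/-- The parent map on options. -/
def P (o : Option (Fin n)) : Option (Fin n) := o.bind F.p

lemma P_none (m : ℕ) : F.P^[m] none = none := by
  induction m with
  | zero => rfl
  | succ m ih => rw [Function.iterate_succ_apply]; exact ih

lemma P_some (i : Fin n) : F.P (some i) = F.p i := rfl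

/-- The descendants of `v`. -/
def Desc (v : Fin n) : Set (Fin n) := {x | ∃ m, F.P^[m] (some x) = some v}

lemma self_mem_Desc (v : Fin n) : v ∈ F.Desc v := ⟨0, rfl⟩

lemma parent_mem_Desc {v x : Fin n} (hx : x ∈ F.Desc v) (hne : x ≠ v) :
    ∃ x', F.p x = some x' ∧ x' ∈ F.Desc v := by
  obtain ⟨m, hm⟩ := hx
  cases m with
  | zero => exact absurd (Option.some.inj hm) hne
  | succ m =>
    rw [Function.iterate_succ_apply, P_some] at hm
    cases hpx : F.p x with
    | none => rw [hpx, P_none] at hm; exact absurd hm (by simp)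
    | some x' => rw [hpx] at hm; exact ⟨x', rfl, m, hm⟩

lemma child_mem_Desc {v x x' : Fin n} (hp : F.p x = some x') (hx : x' ∈ F.Desc v) :
    x ∈ F.Desc v := by
  obtain ⟨m, hm⟩ := hx
  refine ⟨m + 1, ?_⟩
  rw [Function.iterate_succ_apply, P_some, hp]
  exact hm

lemma rank_iterate (m : ℕ) : ∀ x v : Fin n, F.P^[m] (some x) = some v → F.ρ x = F.ρ v + m := by
  induction m with
  | zero =>
    intro x v h
    have := Option.some.inj h
    rw [this, add_zero]
  | succ m ih =>
    intro x v h
    rw [Function.iterate_succ_apply, P_some] at h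
    cases hpx : F.p x with
    | none => rw [hpx, P_none] at h; exact absurd h (by simp)
    | some x' =>
      rw [hpx] at h
      have h1 := ih x' v h
      have h2 := F.hps x x' hpx
      omega

lemma Desc_trans {u v x : Fin n} (hv : v ∈ F.Desc u) (hx : x ∈ F.Desc v) : x ∈ F.Desc u := by
  obtain ⟨m, hm⟩ := hv
  obtain ⟨m', hm'⟩ := hx
  refine ⟨m + m', ?_⟩
  rw [Function.iterate_add_apply, hm', hm]

/-- Ancestors at every smaller rank. -/
lemma exists_anc (x : Fin n) (m : ℕ) (hm : m ≤ F.ρ x) :
    ∃ v, F.P^[m] (some x) = some v ∧ F.ρ v + m = F.ρ x := by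
  induction m with
  | zero => exact ⟨x, rfl, rfl⟩
  | succ m ih =>
    obtain ⟨v, hv, hr⟩ := ih (by omega)
    cases hpv : F.p v with
    | none =>
      have := F.hp0 v hpv
      omega
    | some v' =>
      refine ⟨v', ?_, ?_⟩
      · rw [Function.iterate_succ_apply', hv, P_some, hpv]
      · have := F.hps v v' hpv
        omega

open Classical in
/-- Indicator of the descendants. -/
noncomputable def ind (v : Fin n) : Fin n → ℝ := fun x => if x ∈ F.Desc v then 1 else 0

lemma ext_ind {v x : Fin n} (hne : x ≠ v) : ext (F.ind v) (F.p x) = F.ind v x := by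
  cases hpx : F.p x with
  | none =>
    have : x ∉ F.Desc v := by
      intro hx
      obtain ⟨x', hx', _⟩ := F.parent_mem_Desc hx hne
      rw [hpx] at hx'
      exact absurd hx' (by simp)
    simp [ind, this]
  | some x' =>
    rw [ext_some]
    unfold ind
    by_cases hx : x ∈ F.Desc v
    · obtain ⟨y, hy, hy'⟩ := F.parent_mem_Desc hx hne
      rw [hpx] at hy
      rw [Option.some.inj hy, if_pos hy', if_pos hx]
    · have : x' ∉ F.Desc v := fun h => hx (F.child_mem_Desc hpx h)
      rw [if_neg hx, if_neg this]

/-- Long chains need many other rows. -/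
lemma chain_bound {k : ℕ} (hk : 3 ≤ k) (hcov : Cov k a) (x : Fin n) :
    F.ρ x + 1 ≤ 2 ^ F.Gl.card := by
  classical
  haveI : Nonempty (Fin n) := ⟨x⟩
  -- the ancestors
  choose! anc hanc using fun m (hm : m ≤ F.ρ x) => F.exists_anc x m hm
  -- the colouring
  let col : Fin (F.ρ x + 1) → (F.Gl → Bool) := fun s j =>
    decide (Even ⌊∑ i, a j i * F.ind (anc s) i⌋)
  have hcol : Function.Injective col := by
    have key : ∀ s t : Fin (F.ρ x + 1), s < t → col s ≠ col t := by
      intro s t hst heq
      have hs := hanc s (by omega)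
      have ht := hanc t (by omega)
      set u := anc t with hu
      set v := anc s with hv
      have hvu : v ∈ F.Desc u := by
        refine ⟨t - s, ?_⟩
        rw [← hs.1, ← Function.iterate_add_apply]
        rw [← ht.1]
        congr 1
        have : (s : ℕ) < t := hst
        congr 1
        omega
      have huv : F.ρ u < F.ρ v := by
        have : (s : ℕ) < t := hst
        omega
      have hne : u ≠ v := by
        intro h
        rw [h] at huv
        omega
      have hu_notin : u ∉ F.Desc v := by
        rintro ⟨m, hm⟩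
        have := F.rank_iterate m u v hm
        omega
      let y : Fin n → ℝ := fun i => F.ind u i - F.ind v i
      have hy : ∀ i, y i = 0 ∨ y i = 1 := by
        intro i
        simp only [y, ind]
        by_cases h1 : i ∈ F.Desc v
        · have h2 : i ∈ F.Desc u := F.Desc_trans hvu h1
          left
          rw [if_pos h1, if_pos h2]
          ring
        · by_cases h2 : i ∈ F.Desc u
          · right
            rw [if_neg h1, if_pos h2]
            ring
          · left
            rw [if_neg h1, if_neg h2]
            ring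
      have hy0 : y ≠ 0 := by
        intro h
        have := congrFun h u
        simp only [y, ind, Pi.zero_apply] at this
        rw [if_pos (F.self_mem_Desc u), if_neg hu_notin] at this
        norm_num at this
      have hS : ∀ i ∉ F.A, i ∉ ({u, v} : Finset (Fin n)) → y i + ext y (F.p i) ≠ 1 := by
        intro i _ hi
        simp only [Finset.mem_insert, Finset.mem_singleton, not_or] at hi
        have h1 : ext y (F.p i) = y i := by
          have e1 := F.ext_ind hi.1
          have e2 := F.ext_ind hi.2
          have e3 : ext y (F.p i) = ext (F.ind u) (F.p i) - ext (F.ind v) (F.p i) := by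
            cases F.p i with
            | none => simp
            | some i' => simp [y]
          rw [e3, e1, e2]
        rw [h1]
        rcases hy i with h | h <;> rw [h] <;> norm_num
      have hcard := F.gl_cover hcov y hy hy0 {u, v} hS
      have h2 : ({u, v} : Finset (Fin n)).card ≤ 2 := Finset.card_le_two
      have hpos : 0 < (F.Gl.filter (fun j => ∑ i, a j i * y i = 1)).card := by omega
      obtain ⟨j, hj⟩ := Finset.card_pos.1 hpos
      rw [Finset.mem_filter] at hj
      have h3 : ∑ i, a j i * F.ind u i = ∑ i, a j i * F.ind v i + 1 := by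
        have : ∑ i, a j i * y i = ∑ i, a j i * F.ind u i - ∑ i, a j i * F.ind v i := by
          rw [← Finset.sum_sub_distrib]
          apply Finset.sum_congr rfl
          intro i _
          simp only [y]
          ring
        rw [this] at hj
        linarith [hj.2]
      have h4 := congrFun heq ⟨j, hj.1⟩
      simp only [col] at h4
      rw [← hu, ← hv, h3, Int.floor_add_one] at h4
      rw [decide_eq_decide] at h4
      rw [Int.even_add_one] at h4
      tauto
    intro s t h
    rcases lt_trichotomy s t with hlt | heq | hgt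
    · exact absurd h (key s t hlt)
    · exact heq
    · exact absurd h.symm (key t s hgt)
  have := Fintype.card_le_of_injective col hcol
  simpa [Fintype.card_fin, Fintype.card_fun, Fintype.card_coe] using this

open Classical in
/-- Vertices without children. -/
noncomputable def leaves : Finset (Fin n) := univ.filter (fun i => ∀ i', F.p i' ≠ some i)

lemma exists_leaf (H : ℕ) (hH : ∀ i, F.ρ i ≤ H) : ∀ (d : ℕ) (i : Fin n), H - F.ρ i ≤ d →
    ∃ l ∈ F.leaves, ∃ m, F.P^[m] (some l) = some i := by
  classical
  intro d
  induction d with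
  | zero =>
    intro i hi
    refine ⟨i, ?_, 0, rfl⟩
    rw [leaves, Finset.mem_filter]
    refine ⟨Finset.mem_univ _, ?_⟩
    intro i' h
    have h1 := F.hps i' i h
    have h2 := hH i'
    omega
  | succ d ih =>
    intro i hi
    by_cases hleaf : i ∈ F.leaves
    · exact ⟨i, hleaf, 0, rfl⟩
    · rw [leaves, Finset.mem_filter] at hleaf
      push Not at hleaf
      obtain ⟨i', hi'⟩ := hleaf (Finset.mem_univ _)
      have h1 := F.hps i' i hi'
      obtain ⟨l, hl, m, hm⟩ := ih i' (by omega)
      refine ⟨l, hl, m + 1, ?_⟩
      rw [Function.iterate_succ_apply', hm, P_some, hi']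

lemma leaves_card (H : ℕ) (hH : ∀ i, F.ρ i + 1 ≤ H) : n ≤ F.leaves.card * H := by
  classical
  choose l hl m hm using fun i => F.exists_leaf H (fun i => by have := hH i; omega) H i (Nat.sub_le _ _)
  let f : Fin n → Fin n × ℕ := fun i => (l i, F.ρ i)
  have hinj : Function.Injective f := by
    intro i i' h
    simp only [f, Prod.mk.injEq] at h
    have h1 := F.rank_iterate _ _ _ (hm i)
    have h2 := F.rank_iterate _ _ _ (hm i')
    have h3 : m i = m i' := by rw [h.1] at h1; omega
    have h4 := hm i
    rw [h.1, h3, hm i'] at h4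
    exact (Option.some.inj h4).symm
  have himg : (univ.image f) ⊆ F.leaves ×ˢ (Finset.range H) := by
    intro y hy
    rw [Finset.mem_image] at hy
    obtain ⟨i, _, rfl⟩ := hy
    rw [Finset.mem_product, Finset.mem_range]
    exact ⟨hl i, hH i⟩
  have h1 := Finset.card_le_card himg
  rw [Finset.card_image_of_injective _ hinj, Finset.card_univ, Fintype.card_fin,
    Finset.card_product, Finset.card_range] at h1
  exact h1

end Forest

end Pool.Agent.H18.AKC
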