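import Pool.Agent.H18.AKC.Graph

/-!
The final assembly.
-/

namespace Pool.Agent.H18.AKC

open Finset

lemma ext_add {n : ℕ} (x y : Fin n → ℝ) (s t : ℝ) (u : Option (Fin n)) :
    ext (s • x + t • y) u = s * ext x u + t * ext y u := by
  cases u with
  | none => simp
  | some i => simp [ext]

lemma rk_none {n N : ℕ} (H : Fin N → Set (Fin n → ℝ)) (i : Fin n) (h : par H i = none) :
    rk H i = 0 := by
  classical
  by_cases hi : i ∈ roots H
  · have h1 := hi
    rw [roots, Finset.mem_filter] at h1
    unfold rk
    rw [if_neg (by rw [h1.2]; simp)]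
    unfold dst
    rw [h1.2]
    exact SimpleGraph.dist_self
  · have h1 := par_spec H i hi
    have h2 := dst_par H i hi
    rw [h] at h1 h2
    have h3 : rv H (some i) = none := by
      rw [← rv_none H]
      exact (rv_eq H h1.1.reachable).symm
    have h4 : dst H none = 0 := by
      unfold dst
      rw [rv_none]
      exact SimpleGraph.dist_self
    unfold rk
    rw [if_pos h3]
    omega

lemma rk_some {n N : ℕ} (H : Fin N → Set (Fin n → ℝ)) (i i' : Fin n) (h : par H i = some i') :
    rk H i = rk H i' + 1 := by
  classical
  have hi : i ∉ roots H := by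
    intro hi
    unfold par at h
    rw [dif_pos hi] at h
    exact absurd h (by simp)
  have h1 := par_spec H i hi
  have h2 := dst_par H i hi
  rw [h] at h1 h2
  have h3 : rv H (some i') = rv H (some i) := rv_eq H h1.1.reachable
  unfold rk
  rw [h3]
  split_ifs with h4
  · have h5 : 0 < dst H (some i') := by
      unfold dst
      apply SimpleGraph.Reachable.pos_dist_of_ne (rv_reach H (some i'))
      rw [h3, h4]
      simp
    omega
  · omega

lemma par_not_root {n N : ℕ} (H : Fin N → Set (Fin n → ℝ)) (i i' : Fin n)
    (h : par H i = some i') : i ∉ roots H := by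
  classical
  intro hi
  unfold par at h
  rw [dif_pos hi] at h
  exact absurd h (by simp)

/-- The forest of a cover. -/
theorem exists_forest {n N : ℕ} (hN : Nonempty (Fin N)) (H : Fin N → Set (Fin n → ℝ))
    (a : Fin N → Fin n → ℝ) (ha : ∀ j, H j = {x | ∑ i, a j i * x i = 1}) :
    ∃ F : Forest a, F.A = roots H := by
  classical
  have hrowex : ∀ i : Fin n, ∃ j : Fin N, i ∉ roots H → ∀ v : Fin n → ℝ,
      ∑ t, a j t * v t = v i + ext v (par H i) := by
    intro i
    by_cases hi : i ∈ roots H
    · exact ⟨hN.some, fun h => absurd hi h⟩
    · have h1 := (par_spec H i hi).1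
      obtain ⟨hne, j, hj⟩ := h1
      refine ⟨j, fun _ => ?_⟩
      rw [ha j] at hj
      apply linear_eq (fun x => ∑ t, a j t * x t) (fun x => x i + ext x (par H i))
      · intro s t x y
        simp only [Pi.add_apply, Pi.smul_apply, smul_eq_mul]
        rw [Finset.mul_sum, Finset.mul_sum, ← Finset.sum_add_distrib]
        apply Finset.sum_congr rfl
        intro r _
        ring
      · intro s t x y
        rw [ext_add]
        simp only [Pi.add_apply, Pi.smul_apply, smul_eq_mul]
        ring
      · show (Pi.single i 1 : Fin n → ℝ) i + ext (Pi.single i 1) (par H i) = 1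
        cases hp : par H i with
        | none => simp
        | some i' =>
          have : i' ≠ i := by
            intro h
            rw [hp, h] at hne
            exact hne rfl
          simp [ext, this]
      · rw [hj]
        ext x
        simp only [Set.mem_ofPred_eq, ext_some, add_comm]
  choose row hrow using hrowex
  refine ⟨{ A := roots H, p := par H, ρ := rk H, κ := fun i => rv H (some i), row := row,
            hp0 := rk_none H, hps := rk_some H, hκA := ?_, hκ0 := ?_, hκs := ?_, hκm := ?_,
            hrow := hrow, hinj := ?_ }, rfl⟩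
  · intro i hi
    rw [roots, Finset.mem_filter] at hi
    exact hi.2
  · intro i hi hp
    have h1 := (par_spec H i hi).1
    rw [hp] at h1
    rw [← rv_none H]
    exact (rv_eq H h1.reachable).symm
  · intro i hi i' hp
    have h1 := (par_spec H i hi).1
    rw [hp] at h1
    exact (rv_eq H h1.reachable).symm
  · intro i t ht
    rw [roots, Finset.mem_filter]
    refine ⟨Finset.mem_univ _, ?_⟩
    rw [← ht]
    exact rv_rv H (some i)
  · intro i hi i' hi' h
    by_contra hne
    have e1 : ∀ v : Fin n → ℝ, v i + ext v (par H i) = v i' + ext v (par H i') := by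
      intro v
      rw [← hrow i hi v, ← hrow i' hi' v, h]
    have hpi : par H i ≠ some i := (par_spec H i hi).1.1
    have hpi' : par H i' ≠ some i' := (par_spec H i' hi').1.1
    have h1 := e1 (Pi.single i 1)
    have h2 := e1 (Pi.single i' 1)
    have k1 : ext (Pi.single i (1 : ℝ) : Fin n → ℝ) (par H i) = 0 := by
      cases hp : par H i with
      | none => rfl
      | some t =>
        have : t ≠ i := by
          intro h
          rw [hp, h] at hpi
          exact hpi rfl
        simp [ext, this]
    have k2 : ext (Pi.single i' (1 : ℝ) : Fin n → ℝ) (par H i') = 0 := by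
      cases hp : par H i' with
      | none => rfl
      | some t =>
        have : t ≠ i' := by
          intro h
          rw [hp, h] at hpi'
          exact hpi' rfl
        simp [ext, this]
    rw [k1] at h1
    rw [k2] at h2
    have hne' : i' ≠ i := fun h => hne h.symm
    simp only [Pi.single_eq_same, Pi.single_eq_of_ne hne', Pi.single_eq_of_ne hne, add_zero,
      zero_add] at h1 h2
    have q1 : par H i' = some i := by
      cases hp : par H i' with
      | none => rw [hp] at h1; simp at h1
      | some t =>
        rw [hp, ext_some] at h1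
        by_cases ht : t = i
        · rw [ht]
        · rw [Pi.single_eq_of_ne ht] at h1
          norm_num at h1
    have q2 : par H i = some i' := by
      cases hp : par H i with
      | none => rw [hp] at h2; simp at h2
      | some t =>
        rw [hp, ext_some] at h2
        by_cases ht : t = i'
        · rw [ht]
        · rw [Pi.single_eq_of_ne ht] at h2
          norm_num at h2
    have r1 := rk_some H i' i q1
    have r2 := rk_some H i i' q2
    omega

/-- Normalised equation of a hyperplane avoiding the origin. -/
lemma exists_normal {n : ℕ} {H : Set (Fin n → ℝ)} (h : IsHyperplane H) (h0 : (0 : Fin n → ℝ) ∉ H) :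
    ∃ a : Fin n → ℝ, H = {x | ∑ i, a i * x i = 1} := by
  obtain ⟨b, _, c, rfl⟩ := h
  have hc : c ≠ 0 := by
    intro hc
    apply h0
    simp [hc]
  refine ⟨fun i => b i / c, ?_⟩
  ext x
  simp only [Set.mem_ofPred_eq]
  have h1 : ∑ i, b i / c * x i = (∑ i, b i * x i) / c := by
    rw [Finset.sum_div]
    apply Finset.sum_congr rfl
    intro i _
    ring
  rw [h1, div_eq_one_iff_eq hc]

/-- The bound on the dimension. -/
def nBoundOf (k c : ℕ) : ℕ := Forest.nBound k c

/-- Main theorem. -/
theorem backbone (k c : ℕ) (hk : 3 ≤ k) (n : ℕ) (hn : nBoundOf k c ≤ n) (N : ℕ)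
    (H : Fin N → Set (Fin n → ℝ)) (hH : IsAlmostCover k H)
    (hG : Nat.card (coverGraph H).ConnectedComponent ≤ c + 1) : n + k.choose 2 ≤ N := by
  classical
  obtain ⟨hhyp, h0, hcov⟩ := hH
  choose a ha using fun j => exists_normal (hhyp j) (h0 j)
  have hcov' : Cov k a := by
    intro v hv hv0
    have h1 := hcov v hv hv0
    refine h1.trans (le_of_eq ?_)
    rw [Nat.card_eq_fintype_card, Fintype.card_subtype]
    congr 1
    ext j
    simp only [Finset.mem_filter, Finset.mem_univ, true_and]
    rw [ha j]
    rfl
  have hn1 : 1 ≤ n := le_trans (by unfold nBoundOf Forest.nBound; omega) hn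
  have hN : Nonempty (Fin N) := by
    have h1 := hcov (fun _ => 1) (fun _ => Or.inr rfl) (by
      intro h
      have := congrFun h ⟨0, hn1⟩
      simp at this)
    have hpos : 0 < Nat.card {j : Fin N // (fun _ => (1 : ℝ)) ∈ H j} := by omega
    have := (Nat.card_pos_iff.1 hpos).1
    exact ⟨this.some.1⟩
  obtain ⟨F, hF⟩ := exists_forest hN H a ha
  apply F.forest_bound hk hcov' _ hn
  rw [hF]
  exact roots_card H c hG

end Pool.Agent.H18.AKC
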