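import Pool.Agent.H18.AKC.Main

/-!
From the graph of the cover to a rooted forest.
-/

namespace Pool.Agent.H18.AKC

open Finset

/-- `H` is an affine hyperplane of `ℝ^n`. -/
def IsHyperplane {n : ℕ} (H : Set (Fin n → ℝ)) : Prop :=
  ∃ b : Fin n → ℝ, b ≠ 0 ∧ ∃ c : ℝ, H = {x | ∑ i, b i * x i = c}

/-- The family `H` of `N` members is an almost `k`-cover of the cube `{0,1}^n`. -/
def IsAlmostCover {n N : ℕ} (k : ℕ) (H : Fin N → Set (Fin n → ℝ)) : Prop :=
  (∀ j, IsHyperplane (H j)) ∧ (∀ j, (0 : Fin n → ℝ) ∉ H j) ∧
  ∀ v : Fin n → ℝ, (∀ i, v i = 0 ∨ v i = 1) → v ≠ 0 → k ≤ Nat.card {j : Fin N // v ∈ H j}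

/-- The graph on the coordinates and one extra vertex `none` (with `x_none = 0`): `u` and `v` are
adjacent when the hyperplane `x_u + x_v = 1` is a member of the family. -/
def coverGraph {n N : ℕ} (H : Fin N → Set (Fin n → ℝ)) : SimpleGraph (Option (Fin n)) where
  Adj u v := u ≠ v ∧ ∃ j, H j = {x | ext x u + ext x v = 1}
  symm := ⟨by
    rintro u v ⟨h1, j, hj⟩
    refine ⟨h1.symm, j, ?_⟩
    rw [hj]
    ext x
    simp only [Set.mem_setOf_eq, add_comm]⟩
  loopless := ⟨fun u h => h.1 rfl⟩

lemma exists_pred {V : Type*} (G : SimpleGraph V) {r v : V} (hr : G.Reachable r v) (hne : r ≠ v) :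
    ∃ u, G.Adj u v ∧ G.dist r u + 1 = G.dist r v := by
  obtain ⟨p, hp⟩ := hr.exists_walk_length_eq_dist
  have hlen : p.reverse.length = G.dist r v := by rw [SimpleGraph.Walk.length_reverse, hp]
  cases hq : p.reverse with
  | nil => exact absurd rfl hne
  | cons h q =>
    rename_i u
    rw [hq, SimpleGraph.Walk.length_cons] at hlen
    refine ⟨u, h.symm, ?_⟩
    have h1 : G.dist r u ≤ q.length := by
      rw [SimpleGraph.dist_comm]
      exact SimpleGraph.dist_le q
    have hru : G.Reachable r u := ⟨q.reverse⟩
    obtain ⟨w, hw⟩ := hru.exists_walk_length_eq_dist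
    have h2 : G.dist r v ≤ (w.append (SimpleGraph.Walk.cons h.symm SimpleGraph.Walk.nil)).length :=
      SimpleGraph.dist_le _
    rw [SimpleGraph.Walk.length_append, SimpleGraph.Walk.length_cons,
      SimpleGraph.Walk.length_nil] at h2
    omega

/-- Equal hyperplanes `f = 1`, `g = 1` have equal linear forms. -/
lemma linear_eq {n : ℕ} (f g : (Fin n → ℝ) → ℝ) (hf : ∀ s t : ℝ, ∀ x y, f (s • x + t • y) = s * f x + t * f y)
    (hg : ∀ s t : ℝ, ∀ x y, g (s • x + t • y) = s * g x + t * g y)
    (e : Fin n → ℝ) (he : g e = 1) (h : {x | f x = 1} = {x | g x = 1}) : ∀ v, f v = g v := by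
  have hiff : ∀ x, f x = 1 ↔ g x = 1 := by
    intro x
    have := Set.ext_iff.1 h x
    simpa using this
  intro v
  have h1 : g ((1 : ℝ) • v + (1 - g v) • e) = 1 := by
    rw [hg, he]; ring
  have h2 := (hiff _).2 h1
  rw [hf, (hiff e).2 he] at h2
  linarith

section

variable {n N : ℕ} (H : Fin N → Set (Fin n → ℝ))

open Classical in
/-- Representative of a component. -/
noncomputable def rep (K : (coverGraph H).ConnectedComponent) : Option (Fin n) :=
  if K = (coverGraph H).connectedComponentMk none then none else Quot.out K

lemma rep_none : rep H ((coverGraph H).connectedComponentMk none) = none := by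
  unfold rep
  rw [if_pos rfl]

lemma comp_rep (K : (coverGraph H).ConnectedComponent) :
    (coverGraph H).connectedComponentMk (rep H K) = K := by
  unfold rep
  split_ifs with h
  · exact h.symm
  · exact Quot.out_eq K

/-- Representative of the component of a vertex. -/
noncomputable def rv (v : Option (Fin n)) : Option (Fin n) :=
  rep H ((coverGraph H).connectedComponentMk v)

lemma rv_reach (v : Option (Fin n)) : (coverGraph H).Reachable (rv H v) v := by
  have := comp_rep H ((coverGraph H).connectedComponentMk v)
  exact SimpleGraph.ConnectedComponent.exact this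

lemma rv_eq {u v : Option (Fin n)} (h : (coverGraph H).Reachable u v) : rv H u = rv H v := by
  unfold rv
  rw [SimpleGraph.ConnectedComponent.sound h]

lemma rv_rv (v : Option (Fin n)) : rv H (rv H v) = rv H v := rv_eq H (rv_reach H v)

lemma rv_none : rv H none = none := rep_none H

open Classical in
/-- The roots different from `none`. -/
noncomputable def roots : Finset (Fin n) := univ.filter (fun i => rv H (some i) = some i)

lemma exists_parent (i : Fin n) (hi : i ∉ roots H) :
    ∃ u, (coverGraph H).Adj u (some i) ∧
      (coverGraph H).dist (rv H (some i)) u + 1 = (coverGraph H).dist (rv H (some i)) (some i) := by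
  apply exists_pred _ (rv_reach H (some i))
  intro h
  apply hi
  rw [roots, Finset.mem_filter]
  exact ⟨Finset.mem_univ _, h⟩

open Classical in
/-- The parent. -/
noncomputable def par (i : Fin n) : Option (Fin n) :=
  if h : i ∈ roots H then none else (exists_parent H i h).choose

lemma par_spec (i : Fin n) (hi : i ∉ roots H) : (coverGraph H).Adj (par H i) (some i) ∧
      (coverGraph H).dist (rv H (some i)) (par H i) + 1
        = (coverGraph H).dist (rv H (some i)) (some i) := by
  unfold par
  rw [dif_neg hi]
  exact (exists_parent H i hi).choose_spec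

/-- Distance to the representative. -/
noncomputable def dst (v : Option (Fin n)) : ℕ := (coverGraph H).dist (rv H v) v

lemma dst_par (i : Fin n) (hi : i ∉ roots H) : dst H (par H i) + 1 = dst H (some i) := by
  have h := par_spec H i hi
  have h1 : rv H (par H i) = rv H (some i) := rv_eq H h.1.reachable
  unfold dst
  rw [h1]
  exact h.2

open Classical in
/-- The rank. -/
noncomputable def rk (i : Fin n) : ℕ :=
  if rv H (some i) = none then dst H (some i) - 1 else dst H (some i)

lemma roots_card (c : ℕ) (hc : Nat.card (coverGraph H).ConnectedComponent ≤ c + 1) :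
    (roots H).card ≤ c := by
  classical
  haveI : Finite (coverGraph H).ConnectedComponent := inferInstance
  haveI : Fintype (coverGraph H).ConnectedComponent := Fintype.ofFinite _
  rw [Nat.card_eq_fintype_card] at hc
  let f : Fin n → (coverGraph H).ConnectedComponent := fun i =>
    (coverGraph H).connectedComponentMk (some i)
  have hinj : Set.InjOn f (roots H) := by
    intro i hi i' hi' h
    rw [mem_coe, roots, Finset.mem_filter] at hi hi'
    have h1 : rv H (some i) = rv H (some i') := by
      unfold rv
      exact congrArg _ h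
    rw [hi.2, hi'.2] at h1
    exact Option.some.inj h1
  have h1 : ((roots H).image f).card = (roots H).card := Finset.card_image_of_injOn hinj
  have h2 : (coverGraph H).connectedComponentMk none ∉ (roots H).image f := by
    intro h
    rw [Finset.mem_image] at h
    obtain ⟨i, hi, h⟩ := h
    rw [roots, Finset.mem_filter] at hi
    have h3 : rv H (some i) = rv H none := by
      unfold rv
      exact congrArg _ h
    rw [hi.2, rv_none] at h3
    exact absurd h3 (by simp)
  have h3 := Finset.card_le_univ (insert ((coverGraph H).connectedComponentMk none)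
    ((roots H).image f))
  rw [Finset.card_insert_of_notMem h2, h1] at h3
  omega

end

end Pool.Agent.H18.AKC
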