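import Pool.Agent.H18.AKC.Core

/-!
The bound for covers with a rooted forest of pair rows.
-/

namespace Pool.Agent.H18.AKC

open Finset

namespace Forest

variable {n N : ℕ} {a : Fin N → Fin n → ℝ} (F : Forest a)

/-- The centre attached to `z`. -/
noncomputable def cen (z : Finset (Fin n)) : Fin n → ℝ :=
  fun i => if F.κ i ∈ z.image some then 1 else 0

/-- The centre changed at the elements of `S`. -/
noncomputable def pt (z S : Finset (Fin n)) : Fin n → ℝ :=
  fun i => if i ∈ S then 1 - F.cen z i else F.cen z i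

lemma cen_cases (z : Finset (Fin n)) (i : Fin n) : F.cen z i = 0 ∨ F.cen z i = 1 := by
  unfold cen
  split_ifs
  · exact Or.inr rfl
  · exact Or.inl rfl

lemma pt_cases (z S : Finset (Fin n)) (i : Fin n) : F.pt z S i = 0 ∨ F.pt z S i = 1 := by
  unfold pt
  rcases F.cen_cases z i with h | h <;> rw [h] <;> split_ifs <;> norm_num

lemma ext_pt {z S : Finset (Fin n)} (hS : S ⊆ F.leaves) {i : Fin n} (hi : i ∉ F.A) :
    ext (F.pt z S) (F.p i) = F.cen z i := by
  cases hpi : F.p i with
  | none =>
    have := F.hκ0 i hi hpi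
    simp [cen, this]
  | some i' =>
    have h1 : i' ∉ S := by
      intro h
      have := hS h
      rw [leaves, Finset.mem_filter] at this
      exact this.2 i hpi
    have h2 := F.hκs i hi i' hpi
    simp [pt, h1, cen, h2]

lemma pt_row {z S : Finset (Fin n)} (hS : S ⊆ F.leaves) {i : Fin n} (hi : i ∉ F.A) (hiS : i ∉ S) :
    F.pt z S i + ext (F.pt z S) (F.p i) ≠ 1 := by
  rw [F.ext_pt hS hi]
  have : F.pt z S i = F.cen z i := by simp [pt, hiS]
  rw [this]
  rcases F.cen_cases z i with h | h <;> rw [h] <;> norm_num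

/-- The weights of the other rows. -/
noncomputable def wt (j : Fin N) (t : Fin n) : ℝ :=
  ∑ i ∈ univ.filter (fun i => F.κ i = some t), a j i

lemma sum_cen (j : Fin N) (z : Finset (Fin n)) : ∑ i, a j i * F.cen z i = ∑ t ∈ z, F.wt j t := by
  unfold wt
  have h1 : ∀ i, a j i * F.cen z i = ∑ t ∈ z, (if F.κ i = some t then a j i else 0) := by
    intro i
    unfold cen
    by_cases h : F.κ i ∈ z.image some
    · rw [if_pos h, mul_one]
      rw [Finset.mem_image] at h
      obtain ⟨t, ht, hti⟩ := h
      rw [Finset.sum_eq_single t]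
      · rw [if_pos hti.symm]
      · intro t' _ hne
        rw [if_neg]
        intro h'
        rw [← hti] at h'
        exact hne (Option.some.inj h').symm
      · intro h'; exact absurd ht h'
    · rw [if_neg h, mul_zero]
      symm
      apply Finset.sum_eq_zero
      intro t ht
      rw [if_neg]
      intro h'
      exact h (Finset.mem_image.2 ⟨t, ht, h'.symm⟩)
  simp_rw [h1]
  rw [Finset.sum_comm]
  apply Finset.sum_congr rfl
  intro t _
  rw [Finset.sum_filter]

/-- The sign. -/
noncomputable def sg (τ : Option (Fin n)) (z : Finset (Fin n)) : ℝ :=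
  if τ ∈ z.image some then -1 else 1

lemma sg_sq (τ : Option (Fin n)) (z : Finset (Fin n)) : sg τ z * sg τ z = 1 := by
  unfold sg
  split_ifs <;> norm_num

lemma sum_pt (j : Fin N) (z S : Finset (Fin n)) (τ : Option (Fin n)) (hS : ∀ i ∈ S, F.κ i = τ) :
    ∑ i, a j i * F.pt z S i = ∑ t ∈ z, F.wt j t + sg τ z * ∑ i ∈ S, a j i := by
  rw [← F.sum_cen j z]
  have h1 : ∀ i, a j i * F.pt z S i = a j i * F.cen z i + (if i ∈ S then sg τ z * a j i else 0) := by
    intro i
    unfold pt
    by_cases h : i ∈ S
    · rw [if_pos h, if_pos h]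
      unfold cen sg
      rw [hS i h]
      split_ifs <;> ring
    · rw [if_neg h, if_neg h, add_zero]
  simp_rw [h1]
  rw [Finset.sum_add_distrib, Finset.mul_sum]
  congr 1
  rw [← Finset.sum_filter]
  congr 1
  ext i
  simp

/-- The size bound. -/
def nBound (k c : ℕ) : ℕ :=
  2 ^ (c + k.choose 2) * (c + (c + 1) * sizeR (c + k.choose 2) (2 ^ c) (k - 1)) + 1

open Classical in
/-- Main bound for forests. -/
theorem forest_bound {k c : ℕ} (hk : 3 ≤ k) (hcov : Cov k a) (hc : F.A.card ≤ c)
    (hn : nBound k c ≤ n) : n + k.choose 2 ≤ N := by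
  by_contra hcon
  push Not at hcon
  have hGl := F.card_Gl
  set M := F.Gl.card with hM
  have hM1 : M < F.A.card + k.choose 2 := by omega
  -- many leaves
  have hleaf := F.leaves_card (2 ^ M) (fun i => F.chain_bound hk hcov i)
  set R := sizeR (c + k.choose 2) (2 ^ c) (k - 1) with hR
  have hMle : 2 ^ M ≤ 2 ^ (c + k.choose 2) := Nat.pow_le_pow_right (by norm_num) (by omega)
  have hL0 : c + (c + 1) * R < F.leaves.card := by
    by_contra h
    push Not at h
    have h1 : F.leaves.card * 2 ^ M ≤ (c + (c + 1) * R) * 2 ^ (c + k.choose 2) :=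
      Nat.mul_le_mul h hMle
    unfold nBound at hn
    rw [← hR] at hn
    have h2 : (c + (c + 1) * R) * 2 ^ (c + k.choose 2) = 2 ^ (c + k.choose 2) * (c + (c + 1) * R) :=
      Nat.mul_comm _ _
    omega
  -- leaves outside A with a common anchor
  have hL1 : (c + 1) * R < (F.leaves \ F.A).card := by
    have := Finset.le_card_sdiff F.A F.leaves
    omega
  have hmaps : ∀ i ∈ F.leaves \ F.A, F.κ i ∈ insert none (F.A.image some) := by
    intro i _
    cases hκ : F.κ i with
    | none => exact Finset.mem_insert_self _ _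
    | some t =>
      apply Finset.mem_insert_of_mem
      exact Finset.mem_image_of_mem _ (F.hκm i t hκ)
  have hcardO : (insert none (F.A.image some)).card ≤ c + 1 := by
    refine (Finset.card_insert_le _ _).trans ?_
    have : (F.A.image some).card ≤ F.A.card := Finset.card_image_le
    omega
  have hpig : (insert none (F.A.image some)).card * R < (F.leaves \ F.A).card :=
    lt_of_le_of_lt (Nat.mul_le_mul_right _ hcardO) hL1
  obtain ⟨τ, _, hτcard⟩ := Finset.exists_lt_card_fiber_of_mul_lt_card_of_maps_to hmaps hpig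
  set L := (F.leaves \ F.A).filter (fun i => F.κ i = τ) with hLdef
  -- forbidden values
  let Fb : Fin N → Finset ℝ := fun j =>
    F.A.powerset.image (fun z => sg τ z * (1 - ∑ t ∈ z, F.wt j t))
  have hq : ∀ j ∈ F.Gl, (Fb j).card ≤ 2 ^ c := by
    intro j _
    refine Finset.card_image_le.trans ?_
    rw [Finset.card_powerset]
    exact Nat.pow_le_pow_right (by norm_num) hc
  have hsize : sizeR F.Gl.card (2 ^ c) (k - 1) ≤ L.card := by
    have h1 : sizeR F.Gl.card (2 ^ c) (k - 1) ≤ R := by
      rw [hR]
      exact sizeR_mono (by omega) (by omega) (le_refl _)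
    omega
  obtain ⟨B, hBL, hBcard, hB⟩ := select a F.Gl Fb (2 ^ c) (k - 1) hq L hsize
  have hBleaf : B ⊆ F.leaves := by
    intro i hi
    have := hBL hi
    rw [hLdef, Finset.mem_filter, Finset.mem_sdiff] at this
    exact this.1.1
  have hBA : ∀ i ∈ B, i ∉ F.A := by
    intro i hi
    have := hBL hi
    rw [hLdef, Finset.mem_filter, Finset.mem_sdiff] at this
    exact this.1.2
  have hBκ : ∀ i ∈ B, F.κ i = τ := by
    intro i hi
    have := hBL hi
    rw [hLdef, Finset.mem_filter] at this
    exact this.2
  have hτA : ∀ t, τ = some t → t ∈ F.A := by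
    intro t ht
    have hne : B.Nonempty := by
      rw [← Finset.card_pos]; omega
    obtain ⟨i, hi⟩ := hne
    exact F.hκm i t ((hBκ i hi).trans ht)
  -- coverage by the other rows
  have hcover : ∀ z ⊆ F.A, ∀ S ⊆ B, (z ≠ ∅ ∨ S.Nonempty) →
      k - S.card ≤ (F.Gl.filter (fun j => ∑ i, a j i * F.pt z S i = 1)).card := by
    intro z hz S hS hne
    apply F.gl_cover hcov (F.pt z S) (F.pt_cases z S)
    · intro h0
      by_cases hz0 : z = ∅
      · subst hz0
        rcases hne with h | h
        · exact h rfl
        · obtain ⟨i, hi⟩ := h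
          have := congrFun h0 i
          simp [pt, hi, cen] at this
      · obtain ⟨t, ht⟩ := Finset.nonempty_iff_ne_empty.2 hz0
        have htA := hz ht
        have htS : t ∉ S := fun h => hBA t (hS h) htA
        have := congrFun h0 t
        simp [pt, htS, cen, F.hκA t htA, ht] at this
    · intro i hi hiS
      exact F.pt_row (hS.trans hBleaf) hi hiS
  -- apply the polynomial core
  have hfin := poly_core k (by omega) F.A τ hτA F.Gl F.wt
    (fun j => if h : ∃ c, ∀ i ∈ B, a j i = c then h.choose else 0) ?_ ?_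
  · omega
  · intro z hz hne
    have h1 := hcover z hz ∅ (Finset.empty_subset _) (Or.inl hne)
    rw [Finset.card_empty, Nat.sub_zero] at h1
    refine h1.trans (Finset.card_le_card ?_)
    intro j hj
    rw [Finset.mem_filter] at hj ⊢
    refine ⟨hj.1, ?_⟩
    have h2 := hj.2
    rw [F.sum_pt j z ∅ τ (by simp)] at h2
    simp only [Finset.sum_empty, mul_zero, add_zero] at h2
    rw [h2, sub_self]
  · intro z hz u hu1 huk
    obtain ⟨S, hSB, hSu⟩ := Finset.exists_subset_card_eq (s := B) (n := u) (by omega)
    have hSne : S.Nonempty := by rw [← Finset.card_pos]; omega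
    have h1 := hcover z hz S hSB (Or.inr hSne)
    rw [hSu] at h1
    refine h1.trans (Finset.card_le_card ?_)
    intro j hj
    rw [Finset.mem_filter] at hj ⊢
    refine ⟨hj.1, ?_⟩
    have h2 := hj.2
    rw [F.sum_pt j z S τ (fun i hi => hBκ i (hSB hi))] at h2
    rcases hB j hj.1 with hconst | hforb
    · rw [dif_pos hconst]
      have h3 : ∑ i ∈ S, a j i = (u : ℝ) * hconst.choose := by
        rw [Finset.sum_congr rfl (fun i hi => hconst.choose_spec i (hSB hi)), Finset.sum_const,
          hSu, nsmul_eq_mul]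
      rw [h3] at h2
      unfold sg at h2
      linarith
    · exfalso
      apply hforb S hSB hSne
      simp only [Fb, Finset.mem_image, Finset.mem_powerset]
      refine ⟨z, hz, ?_⟩
      have h3 : 1 - ∑ t ∈ z, F.wt j t = sg τ z * ∑ i ∈ S, a j i := by linarith
      rw [h3, ← mul_assoc, sg_sq, one_mul]

end Forest

end Pool.Agent.H18.AKC
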