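import Pool.Agent.H18.AKC.Alt

/-!
The polynomial part of the argument.
-/

namespace Pool.Agent.H18.AKC

open Polynomial

lemma sum_sub_Ico (k : ℕ) : ∑ u ∈ Finset.Ico 1 k, (k - u) = k.choose 2 := by
  induction k with
  | zero => simp
  | succ k ih =>
    rcases Nat.eq_zero_or_pos k with h0 | h0
    · subst h0; simp
    · rw [Finset.sum_Ico_succ_top (by omega)]
      have h1 : ∀ u ∈ Finset.Ico 1 k, (k + 1 - u) = (k - u) + 1 := by
        intro u hu
        rw [Finset.mem_Ico] at hu
        omega
      rw [Finset.sum_congr rfl h1, Finset.sum_add_distrib, ih]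
      have h2 : (k + 1).choose 2 = k.choose 1 + k.choose 2 := Nat.choose_succ_succ k 1
      rw [h2, Nat.choose_one_right]
      simp
      omega

lemma sum_sub_range (k : ℕ) : ∑ u ∈ Finset.range k, (k - u) = (k + 1).choose 2 := by
  have h := sum_sub_Ico (k + 1)
  rw [Finset.sum_Ico_eq_sum_range] at h
  rw [← h]
  have : k + 1 - 1 = k := by omega
  rw [this]
  apply Finset.sum_congr rfl
  intro u _
  omega

/-- If a nonzero polynomial is divisible by `(X - e u)^(m u)` for all `u ∈ U` (`e ≠ 0`), its
degree is at least the sum of the `m u`. -/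
lemma degree_ge_of_dvd {P : ℝ[X]} (hP : P ≠ 0) (U : Finset ℕ) (m : ℕ → ℕ) (e : ℝ) (he : e ≠ 0)
    (h : ∀ u ∈ U, (X - C (e * (u : ℝ))) ^ m u ∣ P) : ∑ u ∈ U, m u ≤ P.natDegree := by
  have hdvd : (∏ u ∈ U, (X - C (e * (u : ℝ))) ^ m u) ∣ P := by
    apply Finset.prod_dvd_of_coprime
    · intro u hu v hv huv
      apply IsCoprime.pow
      apply pairwise_coprime_X_sub_C (s := fun u : ℕ => e * (u : ℝ))
      · intro x y hxy
        have := mul_left_cancel₀ he hxy
        exact_mod_cast this
      · exact huv
    · exact h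
  have h1 := natDegree_le_of_dvd hdvd hP
  have h2 : (∏ u ∈ U, (X - C (e * (u : ℝ))) ^ m u).natDegree = ∑ u ∈ U, m u := by
    rw [natDegree_prod_of_monic]
    · apply Finset.sum_congr rfl
      intro u _
      rw [natDegree_pow, natDegree_X_sub_C, mul_one]
    · intro u _
      exact (monic_X_sub_C _).pow _
  omega

variable {ι : Type*} [DecidableEq ι] {κ : Type*} [DecidableEq κ]

/-- The list of data of the rows in `J`. -/
noncomputable def data (J : Finset κ) (w : κ → ι → ℝ) (β : κ → ℝ) : List (ℝ × (ι → ℝ) × ℝ) :=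
  J.toList.map (fun j => ((1 : ℝ), w j, β j))

lemma data_length (J : Finset κ) (w : κ → ι → ℝ) (β : κ → ℝ) : (data J w β).length = J.card := by
  simp [data]

lemma prodL_data (J : Finset κ) (w : κ → ι → ℝ) (β : κ → ℝ) (z : Finset ι) :
    prodL (data J w β) z = ∏ j ∈ J, (C (1 - ∑ t ∈ z, w j t) - C (β j) * X) := by
  unfold prodL data
  rw [List.map_map]
  exact Finset.prod_map_toList J _

/-- Divisibility of the product from the number of vanishing factors. -/
lemma dvd_prodL_data (J : Finset κ) (w : κ → ι → ℝ) (β : κ → ℝ) (z : Finset ι) (x : ℝ) (m : ℕ)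
    (h : m ≤ (J.filter (fun j => 1 - (∑ t ∈ z, w j t) - β j * x = 0)).card) :
    (X - C x) ^ m ∣ prodL (data J w β) z := by
  rw [prodL_data]
  have h1 : (∏ j ∈ J.filter (fun j => 1 - (∑ t ∈ z, w j t) - β j * x = 0), (X - C x)) ∣
      ∏ j ∈ J.filter (fun j => 1 - (∑ t ∈ z, w j t) - β j * x = 0),
        (C (1 - ∑ t ∈ z, w j t) - C (β j) * X) := by
    apply Finset.prod_dvd_prod_of_dvd
    intro j hj
    rw [Finset.mem_filter] at hj
    refine ⟨-C (β j), ?_⟩
    have : 1 - (∑ t ∈ z, w j t) = β j * x := by linarith [hj.2]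
    rw [this, C_mul]
    ring
  rw [Finset.prod_const] at h1
  refine (pow_dvd_pow _ h).trans (h1.trans ?_)
  exact Finset.prod_dvd_prod_of_subset _ _ _ (Finset.filter_subset _ _)

lemma dvd_alt (A : Finset ι) (L : List (ℝ × (ι → ℝ) × ℝ)) (Q : ℝ[X])
    (h : ∀ z ⊆ A, Q ∣ prodL L z) : Q ∣ alt A L := by
  unfold alt
  apply Finset.dvd_sum
  intro z hz
  exact Dvd.dvd.mul_left (h z (Finset.mem_powerset.1 hz)) _

lemma eval_zero_alt (A : Finset ι) (J : Finset κ) (w : κ → ι → ℝ) (β : κ → ℝ)
    (h : ∀ z ⊆ A, z ≠ ∅ → ∃ j ∈ J, 1 - ∑ t ∈ z, w j t = 0) :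
    (alt A (data J w β)).eval 0 = 1 := by
  unfold alt
  rw [eval_finset_sum, Finset.sum_eq_single (∅ : Finset ι)]
  · rw [prodL_data]
    simp [eval_prod]
  · intro z hz hne
    obtain ⟨j, hj, h0⟩ := h z (Finset.mem_powerset.1 hz) hne
    rw [eval_mul, prodL_data, eval_prod, Finset.prod_eq_zero hj, mul_zero]
    rw [h0]
    simp
  · intro h
    exact absurd (Finset.empty_mem_powerset A) h

/-- The polynomial core: the number of global rows is at least `|A| + C(k,2)`. -/
theorem poly_core (k : ℕ) (hk : 1 ≤ k) (A : Finset ι) (τ : Option ι)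
    (hτ : ∀ t, τ = some t → t ∈ A) (J : Finset κ) (w : κ → ι → ℝ) (β : κ → ℝ)
    (h0 : ∀ z ⊆ A, z ≠ ∅ → k ≤ (J.filter (fun j => 1 - ∑ t ∈ z, w j t = 0)).card)
    (h1 : ∀ z ⊆ A, ∀ u, 1 ≤ u → u < k → k - u ≤
      (J.filter (fun j => 1 - (∑ t ∈ z, w j t) -
        β j * ((if τ ∈ z.image some then -1 else 1) * (u : ℝ)) = 0)).card) :
    A.card + k.choose 2 ≤ J.card := by
  have hex : ∀ z ⊆ A, z ≠ ∅ → ∃ j ∈ J, 1 - ∑ t ∈ z, w j t = 0 := by
    intro z hz hne
    have := h0 z hz hne
    have hpos : 0 < (J.filter (fun j => 1 - ∑ t ∈ z, w j t = 0)).card := by omega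
    obtain ⟨j, hj⟩ := Finset.card_pos.1 hpos
    rw [Finset.mem_filter] at hj
    exact ⟨j, hj.1, hj.2⟩
  cases τ with
  | none =>
    have hne : alt A (data J w β) ≠ 0 := by
      intro h
      have := eval_zero_alt A J w β hex
      rw [h, eval_zero] at this
      exact zero_ne_one this
    have hd : ∑ u ∈ Finset.Ico 1 k, (k - u) ≤ (alt A (data J w β)).natDegree := by
      apply degree_ge_of_dvd hne _ _ 1 one_ne_zero
      intro u hu
      rw [Finset.mem_Ico] at hu
      apply dvd_alt
      intro z hz
      apply dvd_prodL_data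
      have := h1 z hz u hu.1 hu.2
      simpa using this
    rw [sum_sub_Ico] at hd
    by_contra hcon
    push Not at hcon
    have hz := alt_coeff A (data J w β) (alt A (data J w β)).natDegree
      (by rw [data_length]; omega)
    exact hne (leadingCoeff_eq_zero.1 hz)
  | some t =>
    have htA : t ∈ A := hτ t rfl
    obtain ⟨A0, htA0, rfl⟩ : ∃ A0 : Finset ι, t ∉ A0 ∧ A = insert t A0 :=
      ⟨A.erase t, Finset.notMem_erase t A, (Finset.insert_erase htA).symm⟩
    rw [Finset.card_insert_of_notMem htA0]
    set L := data J w β with hL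
    have hLlen : L.length = J.card := data_length J w β
    have hne : alt A0 L ≠ 0 := by
      intro h
      have := eval_zero_alt A0 J w β (fun z hz hne => hex z (hz.trans (Finset.subset_insert _ _)) hne)
      rw [← hL, h, eval_zero] at this
      exact zero_ne_one this
    have hd : ∑ u ∈ Finset.Ico 1 k, (k - u) ≤ (alt A0 L).natDegree := by
      apply degree_ge_of_dvd hne _ _ 1 one_ne_zero
      intro u hu
      rw [Finset.mem_Ico] at hu
      apply dvd_alt
      intro z hz
      apply dvd_prodL_data
      have hzt : ¬ (some t ∈ z.image some) := by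
        simp only [Finset.mem_image, Option.some.injEq, exists_eq_right]
        exact fun h => htA0 (hz h)
      have := h1 z (hz.trans (Finset.subset_insert _ _)) u hu.1 hu.2
      rw [if_neg hzt] at this
      exact this
    rw [sum_sub_Ico] at hd
    by_contra hcon
    push Not at hcon
    -- the degree of the first part
    have hcoef : (alt A0 L).coeff (alt A0 L).natDegree ≠ 0 := fun h => hne (leadingCoeff_eq_zero.1 h)
    have hle : ¬ (L.length < A0.card + (alt A0 L).natDegree) := fun h => hcoef (alt_coeff A0 L _ h)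
    have hdeg : (alt A0 L).natDegree = k.choose 2 := by omega
    have hJ : J.card = A0.card + k.choose 2 := by omega
    -- the second part vanishes
    have hsec : alt A0 (L.map (shift t)) = 0 := by
      by_contra hne2
      have hd2 : ∑ u ∈ Finset.range k, (k - u) ≤ (alt A0 (L.map (shift t))).natDegree := by
        apply degree_ge_of_dvd hne2 _ _ (-1) (by norm_num)
        intro u hu
        rw [Finset.mem_range] at hu
        apply dvd_alt
        intro z hz
        have htz : t ∉ z := fun h => htA0 (hz h)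
        rw [← prodL_insert L z t htz]
        apply dvd_prodL_data
        have hsub : insert t z ⊆ insert t A0 := Finset.insert_subset_insert _ hz
        rcases Nat.eq_zero_or_pos u with hu0 | hu0
        · subst hu0
          have := h0 (insert t z) hsub (Finset.insert_ne_empty _ _)
          simpa using this
        · have := h1 (insert t z) hsub u hu0 hu
          rw [if_pos (by simp)] at this
          exact this
      rw [sum_sub_range] at hd2
      have hcoef2 : (alt A0 (L.map (shift t))).coeff (alt A0 (L.map (shift t))).natDegree ≠ 0 :=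
        fun h => hne2 (leadingCoeff_eq_zero.1 h)
      have hle2 : ¬ ((L.map (shift t)).length < A0.card + (alt A0 (L.map (shift t))).natDegree) :=
        fun h => hcoef2 (alt_coeff A0 _ _ h)
      rw [List.length_map] at hle2
      have h2 : (k + 1).choose 2 = k.choose 1 + k.choose 2 := Nat.choose_succ_succ k 1
      rw [Nat.choose_one_right] at h2
      omega
    have htot := alt_insert A0 t htA0 L
    rw [hsec, sub_zero] at htot
    have hz := alt_coeff (insert t A0) L (k.choose 2)
      (by rw [Finset.card_insert_of_notMem htA0]; omega)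
    rw [htot, ← hdeg] at hz
    exact hcoef hz

end Pool.Agent.H18.AKC
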